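import Pool.Agent.TH826.MK.Torus
set_option autoImplicit false

/-!
The coordinate rings of the open parts `Ψ ≠ 0` of the hypersurfaces `Φ(x) = 1`, units and evaluation
at complex points.
-/

namespace Pool.Agent.U374.Tw

open Pool.Agent.TH826.MK

open MvPolynomial

section ring

variable {K : Type*} [Field K] {n : ℕ} (Φ Ψ : MvPolynomial (Fin n) K)

/-- The coordinate ring of the hypersurface `Φ(x) = 1`. -/
abbrev HRing : Type _ := MvPolynomial (Fin n) K ⧸ Ideal.span {Φ - 1}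

/-- The restriction of the polynomials to the hypersurface. -/
noncomputable abbrev hmk : MvPolynomial (Fin n) K →+* HRing Φ := Ideal.Quotient.mk _

/-- The coordinate ring of the open part `Ψ ≠ 0` of the hypersurface `Φ(x) = 1`. -/
def HOpen : Type _ := Localization.Away (hmk Φ Ψ)

noncomputable instance : CommRing (HOpen Φ Ψ) := OreLocalization.instCommRing

/-- The restriction of functions to the open part. -/
noncomputable def hto : HRing Φ →+* HOpen Φ Ψ :=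
  algebraMap (HRing Φ) (Localization.Away (hmk Φ Ψ))

/-- The polynomials as functions on the open part. -/
noncomputable def hx : MvPolynomial (Fin n) K →+* HOpen Φ Ψ := (hto Φ Ψ).comp (hmk Φ)

theorem hx_Phi : hx Φ Ψ Φ = 1 := by
  unfold hx
  rw [RingHom.comp_apply]
  have h : hmk Φ Φ = 1 := by
    rw [← sub_eq_zero, ← map_one (hmk Φ), ← map_sub]
    exact Ideal.Quotient.eq_zero_iff_mem.2 (Ideal.subset_span rfl)
  rw [h, map_one]

/-- The constants as functions on the open part. -/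
noncomputable def hcst : K →+* HOpen Φ Ψ := (hx Φ Ψ).comp C

theorem isUnit_hx : IsUnit (hx Φ Ψ Ψ) :=
  IsLocalization.map_units (Localization.Away (hmk Φ Ψ))
    (⟨hmk Φ Ψ, Submonoid.mem_powers _⟩ : Submonoid.powers (hmk Φ Ψ))

variable {Ψ} in
/-- The divisors of `Ψ` are units on the open part. -/
noncomputable def hdiv {p : MvPolynomial (Fin n) K} (h : p ∣ Ψ) : (HOpen Φ Ψ)ˣ :=
  (isUnit_of_dvd_unit (map_dvd (hx Φ Ψ) h) (isUnit_hx Φ Ψ)).unit

variable {Ψ} in
theorem coe_hdiv {p : MvPolynomial (Fin n) K} (h : p ∣ Ψ) :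
    (hdiv Φ h : HOpen Φ Ψ) = hx Φ Ψ p := rfl

end ring

section points

variable {K : Type*} [Field K] {n : ℕ} {Φ Ψ : MvPolynomial (Fin n) K} {σ : K →+* ℂ}

/-- The complex points of the open part. -/
structure HPt (σ : K →+* ℂ) (Φ Ψ : MvPolynomial (Fin n) K) (x : Fin n → ℂ) : Prop where
  eq : eval₂ σ x Φ = 1
  ne : eval₂ σ x Ψ ≠ 0

variable {x : Fin n → ℂ}

/-- evaluation on the hypersurface -/
noncomputable def HPt.ev0 (h : HPt σ Φ Ψ x) : HRing Φ →+* ℂ :=
  Ideal.Quotient.lift (Ideal.span {Φ - 1}) (eval₂Hom σ x) (by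
    intro p hp
    have hle : Ideal.span {Φ - 1} ≤ RingHom.ker (eval₂Hom σ x) := by
      rw [Ideal.span_le]
      rintro q rfl
      show eval₂Hom σ x (Φ - 1) = 0
      rw [map_sub, map_one, sub_eq_zero]
      exact h.eq
    exact hle hp)

theorem HPt.ev0_mk (h : HPt σ Φ Ψ x) (p : MvPolynomial (Fin n) K) :
    h.ev0 (hmk Φ p) = eval₂ σ x p := Ideal.Quotient.lift_mk _ _ _

theorem HPt.isUnit (h : HPt σ Φ Ψ x) : IsUnit (h.ev0 (hmk Φ Ψ)) := by
  rw [h.ev0_mk]
  exact IsUnit.mk0 _ h.ne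

/-- evaluation on the open part -/
noncomputable def HPt.ev (h : HPt σ Φ Ψ x) : HOpen Φ Ψ →+* ℂ :=
  IsLocalization.Away.lift (S := Localization.Away (hmk Φ Ψ)) (hmk Φ Ψ) h.isUnit

theorem HPt.ev_alg (h : HPt σ Φ Ψ x) (b : HRing Φ) :
    h.ev (hto Φ Ψ b) = h.ev0 b :=
  IsLocalization.Away.lift_eq (S := Localization.Away (hmk Φ Ψ)) _ _ _

theorem HPt.ev_hx (h : HPt σ Φ Ψ x) (p : MvPolynomial (Fin n) K) :
    h.ev (hx Φ Ψ p) = eval₂ σ x p := by
  unfold hx
  rw [RingHom.comp_apply, h.ev_alg, h.ev0_mk]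

theorem HPt.ev_hcst (h : HPt σ Φ Ψ x) (u : K) : h.ev (hcst Φ Ψ u) = σ u := by
  unfold hcst
  rw [RingHom.comp_apply, h.ev_hx, eval₂_C]

theorem HPt.congr {x' : Fin n → ℂ} (h : HPt σ Φ Ψ x) (h' : HPt σ Φ Ψ x') (hx : x = x') :
    h.ev = h'.ev := by
  subst hx
  rfl

variable {D : ℕ} {X : (Fin D → ℝ) → Fin n → ℂ}

theorem contDiff_ev (hX : ContDiff ℝ 2 X) (h : ∀ θ, HPt σ Φ Ψ (X θ)) (b : HOpen Φ Ψ) :
    ContDiff ℝ 2 fun θ => (h θ).ev b := by
  have hxk : ∀ k, ContDiff ℝ 2 fun θ => X θ k := fun k => contDiff_pi.1 hX k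
  have hmv : ∀ p : MvPolynomial (Fin n) K, ContDiff ℝ 2 fun θ => eval₂ σ (X θ) p := by
    intro p
    induction p using MvPolynomial.induction_on with
    | C c => simpa using contDiff_const
    | add p q hp hq => simpa using hp.add hq
    | mul_X p k hp => simpa using hp.mul (hxk k)
  have hB : ∀ b : HRing Φ, ContDiff ℝ 2 fun θ => (h θ).ev0 b := by
    intro b
    obtain ⟨p, rfl⟩ := Ideal.Quotient.mk_surjective b
    exact hmv p
  obtain ⟨k, a, hk⟩ : ∃ (k : ℕ) (a : HRing Φ),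
      b * hto Φ Ψ (hmk Φ Ψ) ^ k = hto Φ Ψ a :=
    IsLocalization.Away.surj (S := Localization.Away (hmk Φ Ψ)) (hmk Φ Ψ) b
  have hne : ∀ θ, (h θ).ev0 (hmk Φ Ψ) ≠ 0 := fun θ => (h θ).isUnit.ne_zero
  have e : (fun θ => (h θ).ev b) = fun θ => (h θ).ev0 a * (((h θ).ev0 (hmk Φ Ψ)) ^ k)⁻¹ := by
    funext θ
    have h1 := congrArg (h θ).ev hk
    rw [map_mul, (h θ).ev_alg, map_pow, (h θ).ev_alg] at h1
    rw [← h1, mul_assoc, mul_inv_cancel₀ (pow_ne_zero _ (hne θ)), mul_one]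
  rw [e]
  exact (hB a).mul (((hB _).pow k).inv fun θ => pow_ne_zero _ (hne θ))

/-- a torus in the open part -/
noncomputable def mkH (hX : ContDiff ℝ 2 X) (h : ∀ θ, HPt σ Φ Ψ (X θ))
    (hXp : ∀ θ j, X (θ + Pi.single j 1) = X θ) : Torus (HOpen Φ Ψ) D where
  e θ := (h θ).ev
  smooth b := contDiff_ev hX h b
  periodic θ j := HPt.congr _ _ (hXp θ j)

end points

end Pool.Agent.U374.Tw
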