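import Pool.Agent.U374.Tw.Arr
set_option autoImplicit false

/-!
The classes with coefficients in `Adm` are unramified.
-/

namespace Pool.Agent.U374.Tw

open scoped WithZero

open Pool.Agent.TH826.MK

open Pool.Agent.U374.Tr (Tup symb_congr class_sum val_le val_sub_lt sum_invariant)

open Pool.Agent.U374.Tr.Arr (tp tp_mem le_tp)

namespace Tow

variable {K : Type*} [Field K] {d : ℕ} {A : Tow K d}

theorem near_refl (j : Fin (d + 1)) (T : Tup A.r) : A.Near j T T := ⟨fun _ _ => rfl, fun _ _ => rfl⟩

theorem near_iff {j : Fin (d + 1)} {T T' : Tup A.r} (h : A.Near j T T') (T'' : Tup A.r) :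
    A.Near j T' T'' ↔ A.Near j T T'' :=
  Pool.Agent.U374.Tr.Arr.near_iff (A := A.toArr) h T''

theorem cl_mem_unitPart (hA : A.Admissible) {lam : K} (hlam : IsIntegral ℤ lam) {n : Tup A.r → ℚ}
    (hn : n ∈ A.Adm) {L : Type*} [Field L] (f : A.Open lam →+* L) (v : Valuation L ℤᵐ⁰) :
    KQ.map (d + 1) f (A.cl lam n) ∈ unitPart v (d + 1) := by
  classical
  obtain ⟨hn1, hn2⟩ := hn
  set F : MvPolynomial (Fin (d + 1)) K →+* L := f.comp (hx (A.Phi lam) A.Psi) with hF
  have hc : ∀ x : K, IsIntegral ℤ x → v (F (MvPolynomial.C x)) ≤ 1 := fun x hx =>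
    Pool.Agent.TH826.MK.val_le_one_of_integral v (map_isIntegral_int (F.comp MvPolynomial.C) hx)
  -- the entries
  set b : A.Ix → Lˣ := fun e => Units.map (f : A.Open lam →* L) (A.L lam e) with hb
  have hbv : ∀ e, (b e : L) = F (A.P e) := fun e => rfl
  set a : Tup A.r → Fin (d + 1) → Lˣ := fun T j => b ⟨j, T j⟩ with ha
  have hmap : KQ.map (d + 1) f (A.cl lam n) = ∑ T, n T • symb (a T) := by
    unfold cl
    rw [map_sum]
    refine Finset.sum_congr rfl fun T _ => ?_
    rw [map_smul]
    congr 1
    unfold sym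
    rw [KQ.map_symb]
  rw [hmap]
  have hab : ∀ T j, a T j = b ⟨j, T j⟩ := fun T j => rfl
  have hPsub : ∀ j i i', F (A.P ⟨j, i⟩) - F (A.P ⟨j, i'⟩) = F (A.φ j i' - A.φ j i) := by
    intro j i i'
    unfold P
    rw [map_sub, map_sub, map_sub]
    ring
  -- congruent symbols
  have hcongr : ∀ T T' : Tup A.r, (∀ j, T j = T' j ∨
      v (F (A.φ j (T' j) - A.φ j (T j))) < v (F (A.P ⟨j, T' j⟩))) →
      symb (a T) - symb (a T') ∈ unitPart v (d + 1) := by
    intro T T' h
    refine symb_congr v _ _ fun l => ?_
    rw [hab, hab]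
    rcases h l with h1 | h1
    · rw [h1, div_self', Units.val_one, sub_self, map_zero]
      exact zero_lt_one
    · have h0 : (b ⟨l, T' l⟩ : L) ≠ 0 := (b ⟨l, T' l⟩).ne_zero
      rw [Units.val_div_eq_div_val, div_sub_one h0, map_div₀, hbv, hbv, hPsub]
      have h2 : 0 < v (F (A.P ⟨l, T' l⟩)) := zero_lt_iff.2 ((v.ne_zero_iff).2 h0)
      rwa [div_lt_one₀ h2]
  by_cases hB : ∃ k, 1 < v (F (MvPolynomial.X k))
  · -- a pole
    obtain ⟨j, hj, hmin⟩ := Finset.exists_min_image
      (Finset.univ.filter fun k => 1 < v (F (MvPolynomial.X k))) (fun k => (k : ℕ))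
      (by
        obtain ⟨k1, hk1⟩ := hB
        exact ⟨k1, Finset.mem_filter.2 ⟨Finset.mem_univ _, hk1⟩⟩)
    have hjv : 1 < v (F (MvPolynomial.X j)) := (Finset.mem_filter.1 hj).2
    have hlow : ∀ l, l < j → v (F (MvPolynomial.X l)) ≤ 1 := by
      intro l hl
      by_contra hcon
      have h1 := hmin l (Finset.mem_filter.2 ⟨Finset.mem_univ _, not_le.1 hcon⟩)
      have h2 : (l : ℕ) < j := hl
      omega
    have hφv : ∀ i, v (F (A.φ j i)) ≤ 1 := fun i =>
      val_le F v (hA.phi_int j i) fun l hl => hlow l (hA.phi_vars j i l hl)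
    refine class_sum (unitPart v (d + 1))
      (fun x => Finset.univ.filter fun y : Tup A.r => ∀ l, l ≠ j → y l = x l)
      (fun T => symb (a T)) n _ Finset.univ rfl (fun x _ => ?_) (fun x _ y hy => ?_)
      (fun x _ => Finset.subset_univ _) (fun x _ y hy => ?_) (fun x _ => ?_)
    · exact Finset.mem_filter.2 ⟨Finset.mem_univ _, fun _ _ => rfl⟩
    · have hy' := (Finset.mem_filter.1 hy).2
      ext w
      simp only [Finset.mem_filter, Finset.mem_univ, true_and]
      constructor
      · exact fun h l hl => (h l hl).trans (hy' l hl)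
      · exact fun h l hl => (h l hl).trans (hy' l hl).symm
    · have hy' := (Finset.mem_filter.1 hy).2
      refine hcongr y x fun l => ?_
      by_cases hl : l = j
      · subst hl
        refine Or.inr ?_
        have h1 : v (F (A.P ⟨l, x l⟩)) = v (F (MvPolynomial.X l)) := by
          unfold P
          rw [map_sub]
          exact Valuation.map_sub_eq_of_lt_left v ((hφv _).trans_lt hjv)
        rw [h1, map_sub]
        exact ((v.map_sub _ _).trans (max_le (hφv _) (hφv _))).trans_lt hjv
      · exact Or.inl (hy' l hl)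
    · refine sum_invariant (hn1 j) _ fun T hT i => ?_
      refine Finset.mem_filter.2 ⟨Finset.mem_univ _, fun l hl => ?_⟩
      rw [Function.update_of_ne hl]
      exact (Finset.mem_filter.1 hT).2 l hl
  · push Not at hB
    have hφv : ∀ j i, v (F (A.φ j i)) ≤ 1 := fun j i => val_le F v (hA.phi_int j i) fun l _ => hB l
    have hP : ∀ e, v (F (A.P e)) ≤ 1 := by
      intro e
      unfold P
      rw [map_sub]
      exact (v.map_sub _ _).trans (max_le (hB _) (hφv _ _))
    have hgv : v (F A.g) ≤ 1 := val_le F v hA.g_int fun l _ => hB l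
    have hone : v (F (MvPolynomial.C lam)) * (v (F A.g) *
          ∏ e : A.Ix, v (F (A.P e)) ^ (A.w e.1 e.2)) = 1 := by
      have h1 : F (MvPolynomial.C lam * (A.g * ∏ e : A.Ix, A.P e ^ A.w e.1 e.2)) = 1 := by
        have h2 : f (hx (A.Phi lam) A.Psi (A.Phi lam)) = 1 := by
          rw [hx_Phi]
          exact map_one f
        exact h2
      rw [← map_one v, ← h1]
      simp only [map_mul, map_prod, map_pow]
    have hunit : ∀ e : A.Ix, A.w e.1 e.2 ≠ 0 → v (F (A.P e)) = 1 := by
      intro e he
      refine le_antisymm (hP e) ?_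
      rw [← hone, ← Finset.mul_prod_erase _ _ (Finset.mem_univ e)]
      have h1 : ∏ x ∈ Finset.univ.erase e, v (F (A.P x)) ^ (A.w x.1 x.2) ≤ 1 :=
        Finset.prod_le_one' fun j _ => pow_le_one' (hP j) _
      have h2 : v (F (A.P e)) ^ (A.w e.1 e.2) ≤ v (F (A.P e)) := by
        obtain ⟨k, hk⟩ := Nat.exists_eq_succ_of_ne_zero he
        rw [hk, pow_succ]
        exact mul_le_of_le_one_left' (pow_le_one' (hP e) _)
      calc v (F (MvPolynomial.C lam)) * (v (F A.g) * (v (F (A.P e)) ^ (A.w e.1 e.2) *
            ∏ x ∈ Finset.univ.erase e, v (F (A.P x)) ^ (A.w x.1 x.2)))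
          ≤ 1 * (1 * (v (F (A.P e)) * 1)) :=
            mul_le_mul' (hc _ hlam) (mul_le_mul' hgv (mul_le_mul' h2 h1))
        _ = v (F (A.P e)) := by rw [one_mul, one_mul, mul_one]
    -- the restriction to a graph
    have hres : ∀ (e : A.Ix) (p : MvPolynomial (Fin (d + 1)) K),
        (∀ k, IsIntegral ℤ (p.coeff k)) → v (F (A.P e)) < 1 → A.res e p = 0 →
          v (F p) < 1 := by
      intro e p hp he hr
      set F' : MvPolynomial (Fin (d + 1)) K →+* L := F.comp
        (MvPolynomial.bind₁ (Function.update MvPolynomial.X e.1 (A.φ e.1 e.2))).toRingHom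
        with hF'
      have hF'X : ∀ l, F' (MvPolynomial.X l) =
          F (Function.update MvPolynomial.X e.1 (A.φ e.1 e.2) l) := by
        intro l
        rw [hF']
        show F (MvPolynomial.bind₁ _ (MvPolynomial.X l)) = _
        rw [MvPolynomial.bind₁_X_right]
      have h1 : v (F p - F' p) < 1 := by
        refine val_sub_lt F F' v (fun x => ?_) hp hB (fun l => ?_) (fun l => ?_)
        · rw [hF']
          show F (MvPolynomial.C x) = F (MvPolynomial.bind₁ _ (MvPolynomial.C x))
          rw [MvPolynomial.bind₁_C_right]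
        · rw [hF'X]
          by_cases hl : l = e.1
          · subst hl
            rw [Function.update_self]
            exact hφv _ _
          · rw [Function.update_of_ne hl]
            exact hB l
        · rw [hF'X]
          by_cases hl : l = e.1
          · subst hl
            rw [Function.update_self, ← map_sub]
            exact he
          · rw [Function.update_of_ne hl, sub_self, map_zero]
            exact zero_lt_one
      have h2 : F' p = 0 := by
        show F (A.res e p) = 0
        rw [hr, map_zero]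
      rwa [h2, sub_zero] at h1
    have hsubint : ∀ j i i' k, IsIntegral ℤ ((A.φ j i - A.φ j i').coeff k) := by
      intro j i i' k
      rw [MvPolynomial.coeff_sub]
      exact (hA.phi_int j i k).sub (hA.phi_int j i' k)
    -- the levels at which the function `P_(j,T_j)` is not a unit
    set B : Tup A.r → Finset (Fin (d + 1)) := fun T =>
      Finset.univ.filter fun j => v (F (A.P ⟨j, T j⟩)) < 1 with hBdef
    have hmemB : ∀ T j, j ∈ B T ↔ v (F (A.P ⟨j, T j⟩)) < 1 := by
      intro T j
      rw [hBdef]
      simp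
    have hdiff : ∀ x : Tup A.r, (B x).Nonempty → ∀ y, A.Near (tp (B x)) x y →
        ∀ l, tp (B x) < l → v (F (A.P ⟨l, x l⟩)) = 1 ∧
          v (F (A.φ l (x l) - A.φ l (y l))) < 1 := by
      intro x hx y hy l hl
      refine ⟨le_antisymm (hP _) ?_, ?_⟩
      · by_contra hcon
        exact absurd (le_tp ((hmemB x l).2 (not_le.1 hcon))) (not_le.2 hl)
      · refine hres ⟨tp (B x), x (tp (B x))⟩ _ (hsubint _ _ _)
          ((hmemB _ _).1 (tp_mem hx)) ?_
        have h1 := hy.2 l hl
        unfold res at h1 ⊢
        rw [map_sub, h1, sub_self]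
    have hBeq : ∀ x : Tup A.r, (B x).Nonempty → ∀ y, A.Near (tp (B x)) x y → B y = B x := by
      intro x hx y hy
      ext l
      rw [hmemB, hmemB]
      rcases le_or_gt l (tp (B x)) with hl | hl
      · rw [hy.1 l hl]
      · obtain ⟨h1, h2⟩ := hdiff x hx y hy l hl
        have h3 : F (A.P ⟨l, y l⟩) = F (A.P ⟨l, x l⟩) + F (A.φ l (x l) - A.φ l (y l)) := by
          rw [← hPsub]
          ring
        have h4 : v (F (A.P ⟨l, y l⟩)) = 1 := by
          rw [h3, ← h1]
          refine Valuation.map_add_eq_of_lt_left v ?_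
          rw [h1]
          exact h2
        rw [h1, h4]
    rw [← Finset.sum_filter_add_sum_filter_not Finset.univ (fun T => (B T).Nonempty)]
    refine Submodule.add_mem _ ?_ ?_
    · refine class_sum (unitPart v (d + 1))
        (fun x => Finset.univ.filter fun y : Tup A.r => A.Near (tp (B x)) x y)
        (fun T => symb (a T)) n _ _ rfl (fun x _ => ?_) (fun x hx y hy => ?_)
        (fun x hx y hy => ?_) (fun x hx y hy => ?_) (fun x hx => ?_)
      · exact Finset.mem_filter.2 ⟨Finset.mem_univ _, near_refl _ _⟩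
      · have hx' := (Finset.mem_filter.1 hx).2
        have hy' := (Finset.mem_filter.1 hy).2
        ext w
        simp only [Finset.mem_filter, Finset.mem_univ, true_and]
        rw [hBeq x hx' y hy']
        exact near_iff hy' w
      · have hx' := (Finset.mem_filter.1 hx).2
        have hy' := (Finset.mem_filter.1 hy).2
        refine Finset.mem_filter.2 ⟨Finset.mem_univ _, ?_⟩
        rw [hBeq x hx' y hy']
        exact hx'
      · have hx' := (Finset.mem_filter.1 hx).2
        have hy' := (Finset.mem_filter.1 hy).2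
        refine hcongr y x fun l => ?_
        rcases le_or_gt l (tp (B x)) with hl | hl
        · exact Or.inl (hy'.1 l hl)
        · obtain ⟨h1, h2⟩ := hdiff x hx' y hy' l hl
          exact Or.inr (by rwa [h1])
      · have hx' := (Finset.mem_filter.1 hx).2
        refine hn2 (tp (B x)) x ?_
        by_contra hw
        have h1 := (hmemB _ _).1 (tp_mem hx')
        rw [hunit ⟨tp (B x), x (tp (B x))⟩ hw] at h1
        exact lt_irrefl _ h1
    · refine Submodule.sum_mem _ fun T hT => Submodule.smul_mem _ _ ?_
      have hT' := (Finset.mem_filter.1 hT).2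
      refine Submodule.subset_span ⟨a T, fun l => ?_, rfl⟩
      rw [hab, hbv]
      refine le_antisymm (hP _) ?_
      by_contra hcon
      exact hT' ⟨l, (hmemB T l).2 (not_le.1 hcon)⟩

end Tow

end Pool.Agent.U374.Tw
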