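import Pool.Agent.U374.Tw.Ring
import Pool.Agent.U374.Tr.AMain
set_option autoImplicit false

/-!
Hypersurfaces `λ g ∏_(j,i) (x_j - φ_(j,i)(x_0, ..., x_(j-1))) ^ w_(j,i) = 1` defined by towers of
graphs: definitions.
-/

namespace Pool.Agent.U374.Tw

open Pool.Agent.TH826.MK (KQ symb Unramified Torus)

open Pool.Agent.U374.Tr (Tup)

open MvPolynomial

/-- The data of a family `λ g ∏_(j,i) (x_j - φ_(j,i)) ^ w_(j,i) = 1`, `0 ≤ j ≤ d`, `0 ≤ i ≤ r_j`. -/
structure Tow (K : Type*) [Field K] (d : ℕ) where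
  /-- the polynomial `g` in `x_0, ..., x_d` -/
  g : MvPolynomial (Fin (d + 1)) K
  /-- the numbers `r_j` -/
  r : Fin (d + 1) → ℕ
  /-- the polynomials `φ_(j,i)` -/
  φ : (j : Fin (d + 1)) → Fin (r j + 1) → MvPolynomial (Fin (d + 1)) K
  /-- the exponents `w_(j,i)`, which may be zero -/
  w : (j : Fin (d + 1)) → Fin (r j + 1) → ℕ

namespace Tow

variable {K : Type*} [Field K] {d : ℕ} (A : Tow K d)

/-- The conditions on the family. -/
structure Admissible (A : Tow K d) : Prop where
  /-- `g` is not zero -/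
  g_ne : A.g ≠ 0
  /-- `g` has integral coefficients -/
  g_int : ∀ k, IsIntegral ℤ (A.g.coeff k)
  /-- the `φ_(j,i)` have integral coefficients -/
  phi_int : ∀ j i k, IsIntegral ℤ ((A.φ j i).coeff k)
  /-- `φ_(j,i)` is a polynomial in `x_0, ..., x_(j-1)` -/
  phi_vars : ∀ j i, ∀ l ∈ (A.φ j i).vars, l < j
  /-- for every `j` the polynomials `φ_(j,i)` are different -/
  distinct : ∀ j, Function.Injective (A.φ j)

/-- The pairs `(j, i)`. -/
abbrev Ix : Type := (j : Fin (d + 1)) × Fin (A.r j + 1)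

/-- The polynomial `P_(j,i) = x_j - φ_(j,i)`. -/
noncomputable def P (e : A.Ix) : MvPolynomial (Fin (d + 1)) K := X e.1 - A.φ e.1 e.2

/-- The polynomial `g ∏ P_(j,i) ^ w_(j,i)`. -/
noncomputable def Phi0 : MvPolynomial (Fin (d + 1)) K := A.g * ∏ e : A.Ix, A.P e ^ A.w e.1 e.2

/-- The polynomial `Φ = λ g ∏ P_(j,i) ^ w_(j,i)`. -/
noncomputable def Phi (lam : K) : MvPolynomial (Fin (d + 1)) K := C lam * A.Phi0

/-- The polynomial `∏ P_(j,i)`. -/
noncomputable def Psi : MvPolynomial (Fin (d + 1)) K := ∏ e : A.Ix, A.P e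

/-- The coordinate ring of the open part of the hypersurface `Φ(x) = 1` on which the `P_(j,i)` do not
vanish. -/
def Open (lam : K) : Type _ := HOpen (A.Phi lam) A.Psi

noncomputable instance (lam : K) : CommRing (A.Open lam) :=
  instCommRingHOpen (A.Phi lam) A.Psi

/-- The constants as functions on the open part. -/
noncomputable def cst (lam : K) : K →+* A.Open lam := hcst (A.Phi lam) A.Psi

theorem P_dvd (e : A.Ix) : A.P e ∣ A.Psi := Finset.dvd_prod_of_mem _ (Finset.mem_univ e)

/-- The units `P_(j,i)`. -/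
noncomputable def L (lam : K) (e : A.Ix) : (A.Open lam)ˣ := hdiv (A.Phi lam) (A.P_dvd e)

/-- The symbol `{P_(0,T_0), ..., P_(d,T_d)}` in the Milnor K-theory of the open part. -/
noncomputable def sym (lam : K) (T : Tup A.r) : KQ (A.Open lam) (d + 1) :=
  symb fun j => A.L lam ⟨j, T j⟩

/-- The class `∑_T n_T {P_(0,T_0), ..., P_(d,T_d)}`. -/
noncomputable def cl (lam : K) (n : Tup A.r → ℚ) : KQ (A.Open lam) (d + 1) :=
  ∑ T, n T • A.sym lam T

/-- The restriction of polynomials to the graph `x_j = φ_(j,i)`. -/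
noncomputable def res (e : A.Ix) (p : MvPolynomial (Fin (d + 1)) K) :
    MvPolynomial (Fin (d + 1)) K :=
  bind₁ (Function.update X e.1 (A.φ e.1 e.2)) p

/-- `T'_l = T_l` for `l ≤ j`, and for `l > j` the polynomials `φ_(l,T'_l)` and `φ_(l,T_l)` agree on
the graph `x_j = φ_(j,T_j)`. -/
def Near (j : Fin (d + 1)) (T T' : Tup A.r) : Prop :=
  (∀ l, l ≤ j → T' l = T l) ∧
    ∀ l, j < l → A.res ⟨j, T j⟩ (A.φ l (T' l)) = A.res ⟨j, T j⟩ (A.φ l (T l))

open Classical in
/-- The space of the functions `n` on the tuples such that the sums over the indices of every level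
`j` vanish, and for every `(j, T_j)` with exponent `w_(j,T_j) = 0` the sum of the `n_(T')` over all
`T'` near `T` vanishes. -/
noncomputable def Adm : Submodule ℚ (Tup A.r → ℚ) where
  carrier := {n | (∀ j T, ∑ i, n (Function.update T j i) = 0) ∧
    ∀ j T, A.w j (T j) = 0 → ∑ T' with A.Near j T T', n T' = 0}
  add_mem' := by
    rintro n n' ⟨h1, h2⟩ ⟨h1', h2'⟩
    refine ⟨fun j T => ?_, fun j T hw => ?_⟩
    · simp only [Pi.add_apply, Finset.sum_add_distrib, h1, h1', add_zero]
    · simp only [Pi.add_apply, Finset.sum_add_distrib, h2 j T hw, h2' j T hw, add_zero]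
  zero_mem' := ⟨fun j T => Finset.sum_const_zero, fun j T _ => Finset.sum_const_zero⟩
  smul_mem' := by
    rintro c n ⟨h1, h2⟩
    refine ⟨fun j T => ?_, fun j T hw => ?_⟩
    · simp only [Pi.smul_apply, smul_eq_mul, ← Finset.mul_sum, h1, mul_zero]
    · simp only [Pi.smul_apply, smul_eq_mul, ← Finset.mul_sum, h2 j T hw, mul_zero]

open Classical in
/-- The number `c_l(j,i)` of different polynomials among the `φ_(l,i')` on the graph
`x_j = φ_(j,i)`. -/
noncomputable def cnt (e : A.Ix) (l : Fin (d + 1)) : ℕ :=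
  (Finset.univ.image fun i' => A.res e (A.φ l i')).card

/-- The tuples with `w_(j,T_j) > 0` for some `j`. -/
def Vx : Type := {T : Tup A.r // ∃ j, A.w j (T j) ≠ 0}

noncomputable instance : Fintype A.Vx := @Subtype.fintype _ _ (Classical.decPred _) _

noncomputable instance : DecidableEq A.Vx := Classical.decEq _

/-- the data of a family of fibrations with the same graphs -/
noncomputable def toArr : Pool.Agent.U374.Tr.Arr K 0 d where
  W := 0
  g := A.g
  r := A.r
  φ := A.φ
  w := A.w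

theorem adm_eq : A.Adm = A.toArr.Adm := rfl

theorem finrank_adm : ∏ j, A.r j ≤ Module.finrank ℚ A.Adm +
    ∑ e : A.Ix, if A.w e.1 e.2 = 0 then
      (∏ l with l < e.1, A.r l) * ∏ l with e.1 < l, (A.cnt e l - 1) else 0 :=
  A.toArr.finrank_adm

end Tow

end Pool.Agent.U374.Tw
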