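import Pool.Agent.U374.Tw.AUnr
import Pool.Agent.U374.Tw.Tor
import Pool.Agent.Y797.GC.Sard
set_option autoImplicit false

/-!
The regulators of the symbols of the vertices of a tower of graphs, for large `λ`; smoothness.
-/

namespace Pool.Agent.U374.Tw

open Pool.Agent.TH826.MK

open Pool.Agent.TH826.SX (det_ne_zero_near)

open Pool.Agent.TH577.UA (mmon mmon_zero_ne)

open Pool.Agent.U374.Tr (Tup Chart exists_chart SS SS_inj leadG gr)

open Pool.Agent.U374.Tr.Arr (nS leadG_nS)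

open MvPolynomial

/-- The charts of the vertices: if `Φ_0` vanishes at the vertex, its first exponent is positive. -/
theorem exists_chart' {K : Type*} [Field K] {d : ℕ} {r : Fin (d + 1) → ℕ}
    {φ : (j : Fin (d + 1)) → Fin (r j + 1) → MvPolynomial (Fin (d + 1)) K} (σ : K →+* ℂ)
    (hφ : ∀ j i, ∀ l ∈ (φ j i).vars, l < j) (hd : ∀ j, Function.Injective (φ j))
    {Φ0 : MvPolynomial (Fin (d + 1)) K} (hΦ0 : Φ0 ≠ 0) (T : ∀ j, Fin (r j + 1))
    (hv : ∃ j, gr φ ⟨j, T j⟩ ∣ Φ0) :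
    ∃ Ch : Chart σ Φ0 (gr φ), (∀ j, Ch.μ ⟨j, T j⟩ j = 1) ∧
      (∀ j l, j < l → Ch.μ ⟨j, T j⟩ l = 0) ∧
      (∀ j i, i ≠ T j → ∀ l, j ≤ l → Ch.μ ⟨j, i⟩ l = 0) ∧ 0 < Ch.μ0 0 := by
  classical
  set ψ : Fin (d + 1) → MvPolynomial (Fin (d + 1)) K :=
    Pool.Agent.U374.Tr.psi fun j => φ j (T j) with hψ
  have hT : Pool.Agent.U374.Tr.Tri fun j => φ j (T j) := fun j => hφ j (T j)
  have hne : ∀ p : MvPolynomial (Fin (d + 1)) K, p ≠ 0 → bind₁ ψ p ≠ 0 := fun p hp h0 =>
    hp (Pool.Agent.U374.Tr.psi_injective hT (by rw [h0, map_zero]))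
  set M : ℕ := (bind₁ ψ Φ0).totalDegree + (∑ e, (bind₁ ψ (gr φ e)).totalDegree) + 1 with hM
  have hdeg : ∀ (p : MvPolynomial (Fin (d + 1)) K), p.totalDegree < M →
      ∀ m ∈ p.support, ∀ j, m j < M := by
    intro p hp m hm j
    have h1 : (m.sum fun _ k => k) ≤ p.totalDegree := le_totalDegree hm
    have h2 : m j ≤ m.sum fun _ k => k := by
      by_cases hj : j ∈ m.support
      · exact Finset.single_le_sum (f := fun i => m i) (fun i _ => Nat.zero_le _) hj
      · rw [Finsupp.notMem_support_iff.1 hj]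
        exact Nat.zero_le _
    omega
  have hM0 : (bind₁ ψ Φ0).totalDegree < M := by omega
  have hMe : ∀ e, (bind₁ ψ (gr φ e)).totalDegree < M := by
    intro e
    have h1 : (bind₁ ψ (gr φ e)).totalDegree ≤ ∑ e, (bind₁ ψ (gr φ e)).totalDegree :=
      Finset.single_le_sum (f := fun e => (bind₁ ψ (gr φ e)).totalDegree)
        (fun e _ => Nat.zero_le _) (Finset.mem_univ e)
    omega
  obtain ⟨m0, hm0, -, h0, h0c, h0n, h0e⟩ :=
    Pool.Agent.U374.Tr.exists_fac σ (hne Φ0 hΦ0) (hdeg _ hM0)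
  choose m hm hmin h hc hn he using fun e =>
    Pool.Agent.U374.Tr.exists_fac σ (hne _ (Pool.Agent.U374.Tr.gr_ne hφ e)) (hdeg _ (hMe e))
  have hev : ∀ (y : (Fin d → ℂ) × ℂ) (p : MvPolynomial (Fin (d + 1)) K),
      eval₂ σ (fun j => eval₂ σ (Pool.Agent.U374.Tr.tm M y) (ψ j)) p =
        eval₂ σ (Pool.Agent.U374.Tr.tm M y) (bind₁ ψ p) := by
    intro y p
    exact (eval₂Hom_bind₁ σ (Pool.Agent.U374.Tr.tm M y) ψ p).symm
  have hX : ∀ p : MvPolynomial (Fin (d + 1)) K,
      ContDiff ℂ 2 fun y : (Fin d → ℂ) × ℂ => eval₂ σ (Pool.Agent.U374.Tr.tm M y) p := by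
    intro p
    have e : (fun y : (Fin d → ℂ) × ℂ => eval₂ σ (Pool.Agent.U374.Tr.tm M y) p) =
        fun y => ∑ m ∈ p.support,
        σ (p.coeff m) * mmon (fun l : Fin (d + 1) => SS M m l) y :=
      funext fun y => Pool.Agent.U374.Tr.eval_tm σ M p y
    rw [e]
    exact ContDiff.sum fun m _ => contDiff_const.mul (Pool.Agent.TH577.UA.contDiff_mmon _)
  refine ⟨{ X := fun y j => eval₂ σ (Pool.Agent.U374.Tr.tm M y) (ψ j)
            X_smooth := contDiff_pi.2 fun j => hX (ψ j)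
            μ0 := fun l => SS M m0 l
            h0 := h0
            h0_smooth := h0c
            h0_ne := h0n
            h0_eq := fun y => (hev y Φ0).trans (h0e y)
            μ := fun e l => SS M (m e) l
            h := h
            h_smooth := hc
            h_ne := hn
            h_eq := fun e y => (hev y (gr φ e)).trans (he e y) }, fun j => ?_, fun j l hl => ?_,
            fun j i hi l hl => ?_, ?_⟩
  · -- the polynomial `t_j`
    have h1 : bind₁ ψ (gr φ ⟨j, T j⟩) = X j := Pool.Agent.U374.Tr.bind_psi hT j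
    have h2 : m ⟨j, T j⟩ = Finsupp.single j 1 := by
      have h3 := hm ⟨j, T j⟩
      rw [h1, support_X, Finset.mem_singleton] at h3
      exact h3
    show SS M (m ⟨j, T j⟩) j = 1
    rw [h2]
    unfold SS
    rw [Finset.sum_eq_single j]
    · rw [Finsupp.single_eq_same, Pool.Agent.U374.Tr.ex_self]
    · intro b _ hb
      rw [Finsupp.single_eq_of_ne hb, zero_mul]
    · intro h
      exact absurd (Finset.mem_univ _) h
  · have h1 : bind₁ ψ (gr φ ⟨j, T j⟩) = X j := Pool.Agent.U374.Tr.bind_psi hT j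
    have h2 : m ⟨j, T j⟩ = Finsupp.single j 1 := by
      have h3 := hm ⟨j, T j⟩
      rw [h1, support_X, Finset.mem_singleton] at h3
      exact h3
    show SS M (m ⟨j, T j⟩) l = 0
    rw [h2]
    refine Pool.Agent.U374.Tr.SS_eq_zero (j := l) (fun i hi => ?_) le_rfl
    refine Finsupp.single_eq_of_ne fun h => ?_
    have h4 : (j : ℕ) < l := hl
    have h5 : (l : ℕ) ≤ i := hi
    rw [h] at h5
    omega
  · -- the other graphs
    set q : MvPolynomial (Fin (d + 1)) K := bind₁ ψ (φ j (T j) - φ j i) with hq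
    have hq0 : q ≠ 0 := by
      refine hne _ (sub_ne_zero.2 fun h => hi ?_)
      exact (hd j h).symm
    have hqv : ∀ l ∈ q.vars, l < j := by
      refine Pool.Agent.U374.Tr.vars_bind_psi hT (fun l hl => ?_)
      rcases Finset.mem_union.1 ((vars_sub_subset (p := φ j (T j)) (q := φ j i)) hl) with h1 | h1
      · exact hφ _ _ _ h1
      · exact hφ _ _ _ h1
    have h1 : bind₁ ψ (gr φ ⟨j, i⟩) = X j + q := by
      have h2 : gr φ ⟨j, i⟩ = (X j - φ j (T j)) + (φ j (T j) - φ j i) := by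
        unfold gr
        ring
      have h3 : bind₁ ψ (X j - φ j (T j)) = X j := Pool.Agent.U374.Tr.bind_psi hT j
      rw [h2, map_add, h3]
    obtain ⟨m', hm'⟩ := support_nonempty.2 hq0
    have hz : ∀ i : Fin (d + 1), (j : ℕ) ≤ i → m' i = 0 := fun i hi =>
      mem_support_notMem_vars_zero hm' fun h => absurd (hqv i h) (not_lt.2 hi)
    have hm'' : m' ∈ (bind₁ ψ (gr φ ⟨j, i⟩)).support := by
      rw [h1, mem_support_iff, coeff_add, coeff_X, if_neg, zero_add]
      · exact mem_support_iff.1 hm'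
      · intro h
        have h2 := hz j le_rfl
        rw [← h, Finsupp.single_eq_same] at h2
        exact one_ne_zero h2
    have h2 := hmin ⟨j, i⟩ m' hm'' l
    have h3 : SS M m' l = 0 := Pool.Agent.U374.Tr.SS_eq_zero hz (show (j : ℕ) ≤ l from hl)
    show SS M (m ⟨j, i⟩) l = 0
    omega
  · -- the first exponent of `Φ_0`
    show 0 < SS M m0 0
    rw [Nat.pos_iff_ne_zero]
    intro h1
    have h2 : (m0 : Fin (d + 1) → ℕ) = fun _ => 0 := by
      refine SS_inj (M := M) (hdeg _ hM0 m0 hm0) (fun _ => by omega) ?_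
      rw [h1]
      unfold SS
      simp
    obtain ⟨j, p, hp⟩ := hv
    have h3 : bind₁ ψ Φ0 = X j * bind₁ ψ p := by
      rw [hp, map_mul]
      congr 1
      exact Pool.Agent.U374.Tr.bind_psi hT j
    have h4 : (bind₁ ψ Φ0).coeff m0 = 0 := by
      rw [h3, mul_comm, coeff_mul_X', if_neg]
      rw [Finsupp.notMem_support_iff]
      exact congrFun h2 j
    exact mem_support_iff.1 hm0 h4

namespace Tow

variable {K : Type*} [Field K] {d : ℕ} {A : Tow K d}

theorem unram.{u, v} {K : Type u} [Field K] {d : ℕ} {A : Tow K d} (hA : A.Admissible) {lam : K}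
    (hlam : IsIntegral ℤ lam) : ∀ n ∈ A.Adm, ∀ (L : Type v) [Field L] (f : A.Open lam →+* L),
      KQ.map _ f (A.cl lam n) ∈ Unramified L _ := by
  intro n hn L _ f
  unfold Unramified
  simp only [Submodule.mem_iInf]
  intro v _
  exact cl_mem_unitPart hA hlam hn f v

theorem P_ne (hA : A.Admissible) (e : A.Ix) : A.P e ≠ 0 :=
  Pool.Agent.U374.Tr.gr_ne hA.phi_vars e

theorem Phi0_ne (hA : A.Admissible) : A.Phi0 ≠ 0 :=
  mul_ne_zero hA.g_ne (Finset.prod_ne_zero_iff.2 fun e _ => pow_ne_zero _ (P_ne hA e))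

theorem hent_eq (lam : K) (T : Tup A.r) :
    symb (hent (A.Phi lam) A.P_dvd (nS T)) = A.sym lam T := by
  classical
  unfold sym
  refine congrArg symb (funext fun l => ?_)
  unfold hent nS
  rw [Finset.prod_eq_single ⟨l, T l⟩]
  · rw [if_pos rfl, zpow_one]
    rfl
  · intro b _ hb
    rw [if_neg hb, zpow_zero]
  · intro h
    exact absurd (Finset.mem_univ _) h

theorem exists_det (σ : K →+* ℂ) (hA : A.Admissible) :
    ∃ C : ℝ, 1 ≤ C ∧ ∀ lam : K, C ≤ ‖σ lam‖ →
      ∃ Γ : A.Vx → Torus (A.Open lam) d, (∀ T θ (x : K), (Γ T).e θ (A.cst lam x) = σ x) ∧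
        (Matrix.of fun T T' : A.Vx => (Γ T).reg (A.sym lam T'.1)).det ≠ 0 := by
  classical
  choose Ch hC1 hC2 hC3 hC4 using fun T : A.Vx =>
    exists_chart' σ hA.phi_vars hA.distinct (Phi0_ne hA) T.1 (by
      obtain ⟨j, hj⟩ := T.2
      refine ⟨j, ?_⟩
      unfold Phi0
      exact (dvd_pow_self _ hj).trans (Dvd.dvd.mul_left (Finset.dvd_prod_of_mem
        (fun e : A.Ix => A.P e ^ A.w e.1 e.2) (Finset.mem_univ (⟨j, T.1 j⟩ : A.Ix))) _))
  choose D hD0 hD using fun T : A.Vx =>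
    haveI : Nonempty A.Vx := ⟨T⟩
    exists_torusH (P := A.P) σ (Ch T) (hC4 T) (fun T' : A.Vx => nS T'.1)
  set M0 : Matrix A.Vx A.Vx ℝ := Matrix.diagonal D with hM0
  have hM : M0.det ≠ 0 := by
    rw [hM0, Matrix.det_diagonal]
    exact Finset.prod_ne_zero_iff.2 fun T _ => hD0 T
  obtain ⟨δ, hδ, hdet⟩ := det_ne_zero_near M0 hM
  choose Λ hΛ1 hΛ using fun T : A.Vx => hD T (δ / 2) (by linarith)
  set C : ℝ := ∑ T, |Λ T| + 2 with hC
  have hsum : 0 ≤ ∑ T, |Λ T| := Finset.sum_nonneg fun J _ => abs_nonneg _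
  have hΛC : ∀ T, Λ T ≤ C := by
    intro T
    have h1 := Finset.single_le_sum (f := fun T => |Λ T|) (fun T _ => abs_nonneg _)
      (Finset.mem_univ T)
    have h2 := le_abs_self (Λ T)
    have h3 : |Λ T| ≤ ∑ T, |Λ T| := h1
    linarith
  refine ⟨C, by linarith, fun lam hlam => ?_⟩
  choose Γ hΓ1 hΓ2 using fun T => hΛ T lam A.Psi A.P_dvd ((hΛC T).trans hlam) (fun x _ h2 => by
    unfold Psi
    rw [MvPolynomial.eval₂_prod]
    exact Finset.prod_ne_zero_iff.2 fun e _ => h2 e)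
  refine ⟨Γ, hΓ1, ?_⟩
  have hs : -Real.log ‖σ lam‖ ≠ 0 := by
    have : 0 < Real.log ‖σ lam‖ := Real.log_pos (by linarith)
    linarith
  set t : ℝ := -Real.log ‖σ lam‖ with htdef
  have h1 : (Matrix.of fun T T' : A.Vx => (Γ T).reg (A.sym lam T'.1) / t).det ≠ 0 := by
    refine hdet _ fun T T' => ?_
    have h3 := hΓ2 T T'
    rw [leadG_nS _ (hC1 T) (hC2 T) (hC3 T)] at h3
    have h3' : |(Γ T).reg (A.sym lam T'.1) / t - (if T.1 = T'.1 then 1 else 0) * D T| ≤
        δ / 2 := by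
      rw [← hent_eq]
      exact h3
    have h4 : (if T.1 = T'.1 then 1 else 0) * D T = M0 T T' := by
      by_cases h : T = T'
      · subst h
        rw [if_pos rfl, one_mul, hM0, Matrix.diagonal_apply_eq]
      · rw [if_neg (fun h' => h (Subtype.ext h')), zero_mul, hM0, Matrix.diagonal_apply_ne _ h]
    rw [h4] at h3'
    rw [Matrix.of_apply]
    exact lt_of_le_of_lt h3' (show δ / 2 < δ by linarith)
  have h2 : (Matrix.of fun T T' : A.Vx => (Γ T).reg (A.sym lam T'.1)) =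
      t • (Matrix.of fun T T' : A.Vx => (Γ T).reg (A.sym lam T'.1) / t) := by
    ext T T'
    rw [Matrix.smul_apply, Matrix.of_apply, Matrix.of_apply, smul_eq_mul]
    field_simp
  show (Matrix.of fun T T' : A.Vx => (Γ T).reg (A.sym lam T'.1)).det ≠ 0
  rw [h2, Matrix.det_smul]
  exact mul_ne_zero (pow_ne_zero _ hs) h1

/-- The coefficients in `Adm` vanish outside of the tuples with a positive exponent. -/
theorem adm_eq_zero {n : Tup A.r → ℚ} (hn : n ∈ A.Adm) {T : Tup A.r}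
    (hT : ¬ ∃ j, A.w j (T j) ≠ 0) : n T = 0 := by
  classical
  push Not at hT
  have h1 := hn.2 (Fin.last d) T (hT _)
  rw [← h1]
  symm
  refine (Finset.sum_eq_single_of_mem T (Finset.mem_filter.2 ⟨Finset.mem_univ _, near_refl _ _⟩)
    fun T' hT' hne => ?_)
  exact absurd (funext fun l => (Finset.mem_filter.1 hT').2.1 l (Fin.le_last l)) hne

/-- The regulators of classes with linearly independent coefficients are linearly independent. -/
theorem linearIndependent_reg {lam : K} {D : ℕ} (Γ : A.Vx → Torus (A.Open lam) d)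
    (hΓ : (Matrix.of fun T T' : A.Vx => (Γ T).reg (A.sym lam T'.1)).det ≠ 0)
    {B : Fin D → Tup A.r → ℚ} (hBA : ∀ k, B k ∈ A.Adm) (hB : LinearIndependent ℚ B) :
    LinearIndependent ℝ fun k T => (Γ T).reg (A.cl lam (B k)) := by
  classical
  set M : Matrix A.Vx A.Vx ℝ := Matrix.of fun T T' => (Γ T).reg (A.sym lam T'.1) with hM
  -- the restriction to the tuples with a positive exponent
  let R : (Tup A.r → ℚ) →ₗ[ℚ] (A.Vx → ℚ) := LinearMap.funLeft ℚ ℚ fun T : A.Vx => T.1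
  have hR : LinearIndependent ℚ fun k => R (B k) := by
    have h1 : LinearIndependent ℚ fun k => (⟨B k, hBA k⟩ : A.Adm) :=
      LinearIndependent.of_comp A.Adm.subtype hB
    have h2 := h1.map' (R.comp A.Adm.subtype) (by
      rw [LinearMap.ker_eq_bot, ← LinearMap.ker_eq_bot, LinearMap.ker_eq_bot']
      intro n hn
      refine Subtype.ext (funext fun T => ?_)
      by_cases hT : ∃ j, A.w j (T j) ≠ 0
      · exact congrFun hn (⟨T, hT⟩ : A.Vx)
      · exact adm_eq_zero n.2 hT)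
    exact h2
  have h1 : LinearIndependent ℝ fun k => algebraMap ℚ ℝ ∘ R (B k) :=
    haveI : Finite A.Vx := Fintype.finite inferInstance
    linearIndependent_algebraMap_comp_iff.2 hR
  have h2 : Function.Injective M.mulVec :=
    Matrix.mulVec_injective_of_isUnit ((Matrix.isUnit_iff_isUnit_det M).2 (isUnit_iff_ne_zero.2 hΓ))
  have h3 := h1.map' M.mulVecLin (LinearMap.ker_eq_bot.2 h2)
  have h4 : (fun k T => (Γ T).reg (A.cl lam (B k))) = M.mulVecLin ∘ fun k =>
      algebraMap ℚ ℝ ∘ R (B k) := by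
    funext k T
    unfold cl
    rw [map_sum]
    show _ = ∑ T' : A.Vx, M T T' * ((B k T'.1 : ℚ) : ℝ)
    have h5 : ∀ T' : Tup A.r, (Γ T).reg (B k T' • A.sym lam T') =
        (Γ T).reg (A.sym lam T') * ((B k T' : ℚ) : ℝ) := fun T' => by
      rw [map_smul, Rat.smul_def, mul_comm]
    simp only [h5]
    symm
    have h6 : ∑ T' ∈ Finset.univ.filter (fun T' : Tup A.r => ∃ j, A.w j (T' j) ≠ 0),
        (Γ T).reg (A.sym lam T') * ((B k T' : ℚ) : ℝ) =
        ∑ T' : Tup A.r, (Γ T).reg (A.sym lam T') * ((B k T' : ℚ) : ℝ) := by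
      refine Finset.sum_subset (Finset.filter_subset _ _) fun T' _ hT' => ?_
      have h7 : ¬ ∃ j, A.w j (T' j) ≠ 0 := fun h => hT' (Finset.mem_filter.2 ⟨Finset.mem_univ _, h⟩)
      rw [adm_eq_zero (hBA k) h7]
      simp
    rw [← h6]
    refine Finset.sum_bij (fun T' _ => T'.1) (fun T' _ => ?_) (fun T' _ T'' _ h => ?_)
      (fun T' hT' => ⟨⟨T', (Finset.mem_filter.1 hT').2⟩, Finset.mem_univ _, rfl⟩) (fun T' _ => rfl)
    · exact Finset.mem_filter.2 ⟨Finset.mem_univ _, T'.2⟩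
    · exact Subtype.ext h
  rw [h4]
  exact h3

theorem exists_smooth (A : Tow K d) (σ : K →+* ℂ) :
    ∃ Λ : ℝ, 1 < Λ ∧ ∀ lam : K, Λ ≤ ‖σ lam‖ → ∀ x : Fin (d + 1) → ℂ,
      eval₂ σ x (A.Phi lam) = 1 → ∃ i, eval₂ σ x (pderiv i (A.Phi lam)) ≠ 0 := by
  have heval : ∀ (x : Fin (d + 1) → ℂ) (p : MvPolynomial (Fin (d + 1)) K),
      MvPolynomial.eval x (map σ p) = eval₂ σ x p := fun x p => by rw [MvPolynomial.eval_map]
  obtain ⟨ε, hε, h⟩ := Pool.Agent.Y797.GC.exists_level (map σ A.Phi0)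
  have hinv : 0 < 1 / ε := by positivity
  refine ⟨1 / ε + 2, by linarith, fun lam hlam x hx => ?_⟩
  have hln : 0 < ‖σ lam‖ := by linarith
  have hl0 : σ lam ≠ 0 := norm_pos_iff.1 hln
  have hη : ‖(σ lam)⁻¹‖ < ε := by
    rw [norm_inv, inv_lt_comm₀ hln hε, ← one_div]
    linarith
  have h1 : eval₂ σ x (A.Phi lam) = σ lam * eval₂ σ x A.Phi0 := by
    unfold Tow.Phi
    rw [MvPolynomial.eval₂_mul, MvPolynomial.eval₂_C]
  rw [h1] at hx
  obtain ⟨i, hi⟩ := h _ (inv_ne_zero hl0) hη x (by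
    rw [heval]
    exact eq_inv_of_mul_eq_one_right hx)
  refine ⟨i, ?_⟩
  have h2 : pderiv i (A.Phi lam) = C lam * pderiv i A.Phi0 := by
    unfold Tow.Phi
    rw [Derivation.leibniz, MvPolynomial.pderiv_C, smul_zero, add_zero, smul_eq_mul]
  rw [h2, MvPolynomial.eval₂_mul, MvPolynomial.eval₂_C]
  refine mul_ne_zero hl0 ?_
  rw [MvPolynomial.pderiv_map, heval] at hi
  exact hi

end Tow

end Pool.Agent.U374.Tw
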